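import Pool.Agent.V11212.XI.SubFinal

set_option autoImplicit false

namespace Pool.Agent.Results.MP_172133_co.EveryR

open Pool.Agent.V11212.XI

/-- For every nontrivial finite group `G` and every `r` there is a finite free `G`-simplicial
complex whose mapping index is smaller than the cross-index of the face poset of its `r`-fold
barycentric subdivision. -/
theorem result (G : Type) [Group G] [Fintype G] [Nontrivial G] (r : ℕ) :
    ∃ X : GCx G, (∀ (g : G), ∀ x ∈ Geo X.K, mv g x = x → g = 1) ∧
      ∃ i j, i < j ∧ IsLeast {k | TopLe G X.K k} i ∧
        IsLeast {k | CrossLe G (GCx.sd^[r] X).Face k} j :=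
  sub_final G r

end Pool.Agent.Results.MP_172133_co.EveryR
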